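import Mathlib

/-!
Pairs of disjoint self-avoiding paths with `n` and `m` steps are self-avoiding paths with `n + m`
steps.
-/

set_option autoImplicit false

namespace Pool.Agent.TH262.UL

/-- `w` is an `n`-step self-avoiding path on `ℤ²` from the origin. -/
def IsSAW (n : ℕ) (w : Fin (n + 1) → ℤ × ℤ) : Prop :=
  w 0 = (0, 0) ∧
  (∀ i : Fin n, |(w i.succ).1 - (w i.castSucc).1| + |(w i.succ).2 - (w i.castSucc).2| = 1) ∧
  Function.Injective w

/-- the number of `n`-step self-avoiding paths on `ℤ²` from the origin -/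
noncomputable def a (n : ℕ) : ℕ := Nat.card {w : Fin (n + 1) → ℤ × ℤ // IsSAW n w}

/-- `w{1,…,n} ∩ w'{0,…,m} = ∅` -/
def Disj {n m : ℕ} (w : Fin (n + 1) → ℤ × ℤ) (w' : Fin (m + 1) → ℤ × ℤ) : Prop :=
  ∀ i j, i ≠ 0 → w i ≠ w' j

/-- adjacency -/
def adj (p q : ℤ × ℤ) : Prop := |q.1 - p.1| + |q.2 - p.2| = 1

lemma adj_comm {p q : ℤ × ℤ} (h : adj p q) : adj q p := by
  unfold adj at *
  rw [abs_sub_comm p.1, abs_sub_comm p.2]
  exact h

lemma adj_sub {p q v : ℤ × ℤ} : adj (p - v) (q - v) ↔ adj p q := by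
  unfold adj
  simp

/-- extension to `ℕ` -/
def ex {N : ℕ} (w : Fin (N + 1) → ℤ × ℤ) (k : ℕ) : ℤ × ℤ := w ⟨min k N, by omega⟩

lemma ex_val {N : ℕ} (w : Fin (N + 1) → ℤ × ℤ) (i : Fin (N + 1)) : ex w i.1 = w i := by
  unfold ex
  congr 1
  apply Fin.ext
  have := i.2
  simp only
  omega

lemma ex_of {N : ℕ} (g : ℕ → ℤ × ℤ) {k : ℕ} (hk : k ≤ N) :
    ex (fun i : Fin (N + 1) => g i.1) k = g k := by
  unfold ex
  simp only
  rw [Nat.min_eq_left hk]

lemma ex_ext {N : ℕ} {w w' : Fin (N + 1) → ℤ × ℤ} (h : ∀ k ≤ N, ex w k = ex w' k) : w = w' := by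
  funext i
  rw [← ex_val w, ← ex_val w']
  exact h _ (by omega)

lemma IsSAW.zero {n : ℕ} {w : Fin (n + 1) → ℤ × ℤ} (h : IsSAW n w) : ex w 0 = 0 := by
  have := ex_val w 0
  rw [Fin.val_zero] at this
  rw [this]; exact h.1

lemma IsSAW.step {n : ℕ} {w : Fin (n + 1) → ℤ × ℤ} (h : IsSAW n w) {i : ℕ} (hi : i < n) :
    adj (ex w i) (ex w (i + 1)) := by
  have h1 := h.2.1 ⟨i, hi⟩
  have e1 := ex_val w (Fin.castSucc ⟨i, hi⟩)
  have e2 := ex_val w (Fin.succ ⟨i, hi⟩)
  rw [← e1, ← e2] at h1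
  exact h1

lemma IsSAW.inj {n : ℕ} {w : Fin (n + 1) → ℤ × ℤ} (h : IsSAW n w) {i j : ℕ} (hi : i ≤ n) (hj : j ≤ n)
    (hij : ex w i = ex w j) : i = j := by
  have e1 := ex_val w ⟨i, by omega⟩
  have e2 := ex_val w ⟨j, by omega⟩
  simp only at e1 e2
  rw [e1, e2] at hij
  exact congrArg Fin.val (h.2.2 hij)

lemma SW_of {n : ℕ} {g : ℕ → ℤ × ℤ} (h0 : g 0 = 0) (hs : ∀ i, i < n → adj (g i) (g (i + 1)))
    (hi : ∀ i j, i ≤ n → j ≤ n → g i = g j → i = j) : IsSAW n (fun i => g i.1) := by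
  refine ⟨h0, fun i => ?_, fun i j h => ?_⟩
  · exact hs i.1 i.2
  · exact Fin.ext (hi i.1 j.1 (by omega) (by omega) h)

/-- joining -/
def jn {n m : ℕ} (w : Fin (n + 1) → ℤ × ℤ) (w' : Fin (m + 1) → ℤ × ℤ) (k : ℕ) : ℤ × ℤ :=
  (if k ≤ n then ex w (n - k) else ex w' (k - n)) - ex w n

lemma jn_lo {n m : ℕ} (w : Fin (n + 1) → ℤ × ℤ) (w' : Fin (m + 1) → ℤ × ℤ) {k : ℕ} (h : k ≤ n) :
    jn w w' k = ex w (n - k) - ex w n := by
  unfold jn; rw [if_pos h]

lemma jn_hi {n m : ℕ} {w : Fin (n + 1) → ℤ × ℤ} {w' : Fin (m + 1) → ℤ × ℤ} (hw : ex w 0 = 0)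
    (hw' : ex w' 0 = 0) {k : ℕ} (h : n ≤ k) :
    jn w w' k = ex w' (k - n) - ex w n := by
  unfold jn
  rcases Nat.lt_or_ge n k with h1 | h1
  · rw [if_neg (by omega)]
  · have : k = n := by omega
    subst this
    rw [if_pos le_rfl, Nat.sub_self, hw, hw']

lemma disj_ex {n m : ℕ} {w : Fin (n + 1) → ℤ × ℤ} {w' : Fin (m + 1) → ℤ × ℤ} (h : Disj w w')
    {i j : ℕ} (hi : i ≤ n) (hj : j ≤ m) (hi0 : i ≠ 0) : ex w i ≠ ex w' j := by
  have e1 := ex_val w ⟨i, by omega⟩
  have e2 := ex_val w' ⟨j, by omega⟩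
  simp only at e1 e2
  rw [e1, e2]
  apply h
  intro h0
  exact hi0 (congrArg Fin.val h0)

/-- pairs and single walks -/
noncomputable def pairEquiv (n m : ℕ) :
    {q : (Fin (n + 1) → ℤ × ℤ) × (Fin (m + 1) → ℤ × ℤ) // IsSAW n q.1 ∧ IsSAW m q.2 ∧ Disj q.1 q.2} ≃
      {w : Fin (n + m + 1) → ℤ × ℤ // IsSAW (n + m) w} where
  toFun q := ⟨fun k => jn q.1.1 q.1.2 k.1, by
    obtain ⟨⟨w, w'⟩, h, h', hd⟩ := q
    simp only
    simp only at h h' hd
    refine SW_of (g := fun k => jn w w' k) ?_ ?_ ?_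
    · show jn w w' 0 = 0
      rw [jn_lo _ _ (Nat.zero_le _), Nat.sub_zero, sub_self]
    · intro i hi
      rcases Nat.lt_or_ge i n with h1 | h1
      · rw [jn_lo _ _ h1.le, jn_lo _ _ (show i + 1 ≤ n by omega), adj_sub]
        have h2 := h.step (i := n - (i + 1)) (by omega)
        rw [show n - (i + 1) + 1 = n - i by omega] at h2
        exact adj_comm h2
      · rw [jn_hi h.zero h'.zero h1, jn_hi h.zero h'.zero (show n ≤ i + 1 by omega), adj_sub]
        have h2 := h'.step (i := i - n) (by omega)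
        rw [show i - n + 1 = i + 1 - n by omega] at h2
        exact h2
    · intro i j hi hj hij
      rcases Nat.lt_or_ge i n with h1 | h1
      · rcases Nat.lt_or_ge j n with h2 | h2
        · rw [jn_lo _ _ h1.le, jn_lo _ _ h2.le] at hij
          have := h.inj (by omega) (by omega) (sub_left_injective hij)
          omega
        · rw [jn_lo _ _ h1.le, jn_hi h.zero h'.zero h2] at hij
          exact absurd (sub_left_injective hij) (disj_ex hd (by omega) (by omega) (by omega))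
      · rcases Nat.lt_or_ge j n with h2 | h2
        · rw [jn_lo _ _ h2.le, jn_hi h.zero h'.zero h1] at hij
          exact absurd (sub_left_injective hij).symm (disj_ex hd (by omega) (by omega) (by omega))
        · rw [jn_hi h.zero h'.zero h1, jn_hi h.zero h'.zero h2] at hij
          have := h'.inj (by omega) (by omega) (sub_left_injective hij)
          omega⟩
  invFun w := ⟨((fun i : Fin (n + 1) => ex w.1 (n - i.1) - ex w.1 n),
     (fun j : Fin (m + 1) => ex w.1 (n + j.1) - ex w.1 n)), by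
    obtain ⟨ω, h⟩ := w
    refine ⟨?_, ?_, ?_⟩
    · refine SW_of (g := fun i => ex ω (n - i) - ex ω n) (by simp) ?_ ?_
      · intro i hi
        rw [adj_sub]
        have h1 := h.step (i := n - (i + 1)) (by omega)
        rw [show n - (i + 1) + 1 = n - i by omega] at h1
        exact adj_comm h1
      · intro i j hi hj hij
        have := h.inj (by omega) (by omega) (sub_left_injective hij)
        omega
    · refine SW_of (g := fun i => ex ω (n + i) - ex ω n) (by simp) ?_ ?_
      · intro i hi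
        rw [adj_sub]
        exact h.step (i := n + i) (by omega)
      · intro i j hi hj hij
        have := h.inj (by omega) (by omega) (sub_left_injective hij)
        omega
    · intro i j hi0 hij
      have hi := i.2
      have hj := j.2
      have h1 := h.inj (by omega) (by omega) (sub_left_injective hij)
      apply hi0
      apply Fin.ext
      simp only [Fin.val_zero]
      omega⟩
  left_inv q := by
    obtain ⟨⟨w, w'⟩, h, h', hd⟩ := q
    simp only at h h' hd
    apply Subtype.ext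
    apply Prod.ext
    · refine ex_ext fun k hk => ?_
      simp only
      rw [ex_of (fun i => ex (fun k : Fin (n + m + 1) => jn w w' k.1) (n - i) -
        ex (fun k : Fin (n + m + 1) => jn w w' k.1) n) hk]
      rw [ex_of (fun k => jn w w' k) (show n - k ≤ n + m by omega),
        ex_of (fun k => jn w w' k) (show n ≤ n + m by omega),
        jn_lo _ _ (show n - k ≤ n by omega), jn_lo _ _ le_rfl, Nat.sub_self, h.zero,
        show n - (n - k) = k by omega]
      simp
    · refine ex_ext fun k hk => ?_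
      simp only
      rw [ex_of (fun i => ex (fun k : Fin (n + m + 1) => jn w w' k.1) (n + i) -
        ex (fun k : Fin (n + m + 1) => jn w w' k.1) n) hk]
      rw [ex_of (fun k => jn w w' k) (show n + k ≤ n + m by omega),
        ex_of (fun k => jn w w' k) (show n ≤ n + m by omega),
        jn_hi h.zero h'.zero (show n ≤ n + k by omega), jn_lo _ _ le_rfl, Nat.sub_self, h.zero,
        Nat.add_sub_cancel_left]
      simp
  right_inv w := by
    obtain ⟨ω, h⟩ := w
    apply Subtype.ext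
    refine ex_ext fun k hk => ?_
    simp only
    rw [ex_of (fun k => jn (fun i : Fin (n + 1) => ex ω (n - i.1) - ex ω n)
      (fun j : Fin (m + 1) => ex ω (n + j.1) - ex ω n) k) hk]
    have e1 : ∀ i, i ≤ n → ex (fun i : Fin (n + 1) => ex ω (n - i.1) - ex ω n) i =
        ex ω (n - i) - ex ω n := fun i hi => ex_of (fun i => ex ω (n - i) - ex ω n) hi
    have e2 : ∀ i, i ≤ m → ex (fun j : Fin (m + 1) => ex ω (n + j.1) - ex ω n) i =
        ex ω (n + i) - ex ω n := fun i hi => ex_of (fun i => ex ω (n + i) - ex ω n) hi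
    unfold jn
    rcases Nat.lt_or_ge n k with h1 | h1
    · rw [if_neg (by omega), e1 n le_rfl, e2 (k - n) (by omega), Nat.sub_self, h.zero,
        show n + (k - n) = k by omega]
      simp
    · rw [if_pos h1, e1 n le_rfl, e1 (n - k) (by omega), Nat.sub_self, h.zero,
        show n - (n - k) = k by omega]
      simp

theorem card_pairs (n m : ℕ) :
    Nat.card {q : (Fin (n + 1) → ℤ × ℤ) × (Fin (m + 1) → ℤ × ℤ) //
      IsSAW n q.1 ∧ IsSAW m q.2 ∧ Disj q.1 q.2} = a (n + m) :=
  Nat.card_congr (pairEquiv n m)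

end Pool.Agent.TH262.UL
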