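import Pool.Agent.TH262.UL.Inst
import Pool.Agent.TH262.SawL.Strict

/-!
Disjoint pairs of self-avoiding paths with given end points on the two sides of a lattice line.
-/

set_option autoImplicit false

namespace Pool.Agent.TH262.UL

open Pool.Agent.TH262.SawL

/-- number of `n`-step self-avoiding paths from `0` to `x` -/
noncomputable def ax (n : ℕ) (x : ℤ × ℤ) : ℕ :=
  Nat.card {w : Fin (n + 1) → ℤ × ℤ // IsSAW n w ∧ w (Fin.last n) = x}

/-- number of disjoint pairs with end points `x`, `y` -/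
noncomputable def pr (n m : ℕ) (x y : ℤ × ℤ) : ℕ :=
  Nat.card {q : (Fin (n + 1) → ℤ × ℤ) × (Fin (m + 1) → ℤ × ℤ) //
    (IsSAW n q.1 ∧ IsSAW m q.2 ∧ Disj q.1 q.2) ∧ q.1 (Fin.last n) = x ∧ q.2 (Fin.last m) = y}

lemma ax_eq (n : ℕ) (x : ℤ × ℤ) : ax n x = TH795.EP.a n x.1 x.2 := TH795.EP.card_walks_to n x

lemma finite_saw (n : ℕ) : Finite {w : Fin (n + 1) → ℤ × ℤ // IsSAW n w} := by
  have h := a_pos n
  apply Nat.finite_of_card_ne_zero
  have h1 : (a n : ℝ) ≠ 0 := h.ne'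
  exact_mod_cast h1

lemma finite_pairs (n m : ℕ) : Finite {q : (Fin (n + 1) → ℤ × ℤ) × (Fin (m + 1) → ℤ × ℤ) //
    IsSAW n q.1 ∧ IsSAW m q.2 ∧ Disj q.1 q.2} := by
  have := finite_saw (n + m)
  exact Finite.of_equiv _ (pairEquiv n m).symm

lemma finite_pr (n m : ℕ) (x y : ℤ × ℤ) :
    Finite {q : (Fin (n + 1) → ℤ × ℤ) × (Fin (m + 1) → ℤ × ℤ) //
    (IsSAW n q.1 ∧ IsSAW m q.2 ∧ Disj q.1 q.2) ∧ q.1 (Fin.last n) = x ∧ q.2 (Fin.last m) = y} := by
  have := finite_pairs n m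
  exact Finite.of_injective
    (β := {q : (Fin (n + 1) → ℤ × ℤ) × (Fin (m + 1) → ℤ × ℤ) //
      IsSAW n q.1 ∧ IsSAW m q.2 ∧ Disj q.1 q.2})
    (fun q => ⟨q.1, q.2.1⟩) (by
      intro p q h
      apply Subtype.ext
      have h1 := congrArg Subtype.val h
      exact h1)

/-- walks in the closed upper half plane to `x` -/
lemma card_up (n : ℕ) (x : ℤ × ℤ) :
    Nat.card {w : Fin (n + 1) → ℤ × ℤ // IsSAW n w ∧ w (Fin.last n) = x ∧ ∀ i, 0 ≤ (w i).2} =
      la n x.1 (-x.2) := by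
  rw [← card_hi]
  apply TH795.EP.ncard_eq n (fun w => (H981.dx w = x.1 ∧ H981.dy w = x.2) ∧ Hi w)
    (fun ω => ω (Fin.last n) = x ∧ ∀ i, 0 ≤ (ω i).2)
  intro w hw
  have e : Hi w ↔ ∀ i, 0 ≤ (TH795.EP.ew n w i).2 := by
    constructor
    · intro h i
      exact h i
    · intro h k
      rcases Nat.lt_or_ge k (n + 1) with h1 | h1
      · exact h ⟨k, h1⟩
      · rw [path_ge (by omega), hw]
        exact h ⟨n, by omega⟩
  rw [TH795.EP.ew_last n hw, e]
  constructor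
  · rintro ⟨⟨h1, h2⟩, h3⟩; exact ⟨Prod.ext h1 h2, h3⟩
  · rintro ⟨h1, h2⟩
    exact ⟨⟨congrArg Prod.fst h1, congrArg Prod.snd h1⟩, h2⟩

/-- walks strictly below the starting point to `y` -/
lemma card_dn (n : ℕ) (y : ℤ × ℤ) :
    Nat.card {w : Fin (n + 1) → ℤ × ℤ // IsSAW n w ∧ w (Fin.last n) = y ∧
      ∀ i, i ≠ 0 → (w i).2 ≤ -1} = ls n y.1 y.2 := by
  have e0 : ls n y.1 y.2 = (TH795.EP.fs (fun w => H981.Saw w ∧ (H981.dx w = y.1 ∧ H981.dy w = y.2) ∧ Ls w)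
      n).card := by
    unfold ls
    congr 1
    ext w
    rw [TH795.EP.mem_fs, TH795.EP.mem_fs]
    tauto
  rw [e0]
  apply TH795.EP.ncard_eq n (fun w => (H981.dx w = y.1 ∧ H981.dy w = y.2) ∧ Ls w)
    (fun ω => ω (Fin.last n) = y ∧ ∀ i, i ≠ 0 → (ω i).2 ≤ -1)
  intro w hw
  have e : Ls w ↔ ∀ i, i ≠ 0 → (TH795.EP.ew n w i).2 ≤ -1 := by
    constructor
    · intro h i hi
      refine h i ?_ (by have := i.2; omega)
      by_contra h1
      exact hi (Fin.ext (by simp only [Fin.val_zero]; omega))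
    · intro h k hk1 hk2
      refine h ⟨k, by omega⟩ ?_
      intro h1
      have := congrArg Fin.val h1
      simp only [Fin.val_zero] at this
      omega
  rw [TH795.EP.ew_last n hw, e]
  constructor
  · rintro ⟨⟨h1, h2⟩, h3⟩; exact ⟨Prod.ext h1 h2, h3⟩
  · rintro ⟨h1, h2⟩
    exact ⟨⟨congrArg Prod.fst h1, congrArg Prod.snd h1⟩, h2⟩

/-- a walk above and a walk strictly below are disjoint -/
lemma mul_le_pr (n m : ℕ) (x y : ℤ × ℤ) : la n x.1 (-x.2) * ls m y.1 y.2 ≤ pr n m x y := by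
  rw [← card_up, ← card_dn, ← Nat.card_prod]
  unfold pr
  have := finite_pr n m x y
  refine Nat.card_le_card_of_injective (fun q => ⟨(q.1.1, q.2.1), ?_⟩) ?_
  · obtain ⟨⟨w, h1, h2, h3⟩, ⟨w', h1', h2', h3'⟩⟩ := q
    refine ⟨⟨h1, h1', ?_⟩, h2, h2'⟩
    intro i j hi hij
    simp only at hij
    by_cases hj : j = 0
    · subst hj
      rw [h1'.1, ← h1.1] at hij
      exact hi (h1.2.2 hij)
    · have g1 := h3 i
      have g2 := h3' j hj
      rw [hij] at g1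
      omega
  · rintro ⟨⟨w, h1⟩, ⟨w', h1'⟩⟩ ⟨⟨v, h2⟩, ⟨v', h2'⟩⟩ h
    have h3 := congrArg Subtype.val h
    simp only [Prod.mk.injEq] at h3
    obtain ⟨rfl, rfl⟩ := h3
    rfl

/-! ### symmetries -/

/-- a symmetry of the lattice that fixes the origin -/
structure Sym where
  T : ℤ × ℤ → ℤ × ℤ
  T' : ℤ × ℤ → ℤ × ℤ
  l : ∀ p, T' (T p) = p
  r : ∀ p, T (T' p) = p
  z : T (0, 0) = (0, 0)
  d : ∀ p q, |(T q).1 - (T p).1| + |(T q).2 - (T p).2| = |q.1 - p.1| + |q.2 - p.2|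

lemma Sym.z' (S : Sym) : S.T' (0, 0) = (0, 0) := by
  have := S.l (0, 0)
  rwa [S.z] at this

/-- the inverse -/
def Sym.inv (S : Sym) : Sym where
  T := S.T'
  T' := S.T
  l := S.r
  r := S.l
  z := S.z'
  d p q := by
    have := S.d (S.T' p) (S.T' q)
    rw [S.r, S.r] at this
    exact this.symm

lemma Sym.saw (S : Sym) {n : ℕ} {w : Fin (n + 1) → ℤ × ℤ} (h : IsSAW n w) :
    IsSAW n (fun i => S.T (w i)) := by
  refine ⟨by simp only [h.1, S.z], fun i => ?_, fun i j hij => ?_⟩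
  · simp only
    rw [S.d]; exact h.2.1 i
  · have := congrArg S.T' hij
    simp only [S.l] at this
    exact h.2.2 this

lemma Sym.disj (S : Sym) {n m : ℕ} {w : Fin (n + 1) → ℤ × ℤ} {w' : Fin (m + 1) → ℤ × ℤ}
    (h : Disj w w') : Disj (fun i => S.T (w i)) (fun i => S.T (w' i)) := by
  intro i j hi hij
  have := congrArg S.T' hij
  simp only [S.l] at this
  exact h i j hi this

lemma Sym.pr_le (S : Sym) (n m : ℕ) (x y : ℤ × ℤ) : pr n m x y ≤ pr n m (S.T x) (S.T y) := by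
  unfold pr
  have := finite_pr n m (S.T x) (S.T y)
  refine Nat.card_le_card_of_injective
    (fun q => ⟨(fun i => S.T (q.1.1 i), fun i => S.T (q.1.2 i)), ?_⟩) ?_
  · obtain ⟨⟨w, w'⟩, ⟨h1, h2, h3⟩, h4, h5⟩ := q
    refine ⟨⟨S.saw h1, S.saw h2, S.disj h3⟩, ?_, ?_⟩
    · exact congrArg S.T h4
    · exact congrArg S.T h5
  · rintro ⟨⟨w, w'⟩, h⟩ ⟨⟨v, v'⟩, h'⟩ he
    have h3 := congrArg Subtype.val he
    simp only [Prod.mk.injEq] at h3
    have e1 : w = v := by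
      funext i
      have := congrArg S.T' (congrFun h3.1 i)
      simpa only [S.l] using this
    have e2 : w' = v' := by
      funext i
      have := congrArg S.T' (congrFun h3.2 i)
      simpa only [S.l] using this
    subst e1 e2
    rfl

lemma finite_ax (n : ℕ) (x : ℤ × ℤ) :
    Finite {w : Fin (n + 1) → ℤ × ℤ // IsSAW n w ∧ w (Fin.last n) = x} := by
  have := finite_saw n
  exact Finite.of_injective (β := {w : Fin (n + 1) → ℤ × ℤ // IsSAW n w})
    (fun q => ⟨q.1, q.2.1⟩) (by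
      intro p q h
      apply Subtype.ext
      have h1 := congrArg Subtype.val h
      exact h1)

lemma Sym.ax_le (S : Sym) (n : ℕ) (x : ℤ × ℤ) : ax n x ≤ ax n (S.T x) := by
  unfold ax
  have := finite_ax n (S.T x)
  refine Nat.card_le_card_of_injective (fun q => ⟨fun i => S.T (q.1 i), ?_⟩) ?_
  · obtain ⟨w, h1, h4⟩ := q
    exact ⟨S.saw h1, congrArg S.T h4⟩
  · rintro ⟨w, h⟩ ⟨v, h'⟩ he
    have h3 := congrArg Subtype.val he
    have e1 : w = v := by
      funext i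
      have := congrArg S.T' (congrFun h3 i)
      simpa only [S.l] using this
    subst e1
    rfl

lemma Sym.ax_eq (S : Sym) (n : ℕ) (x : ℤ × ℤ) : ax n (S.T x) = ax n x := by
  refine le_antisymm ?_ (S.ax_le n x)
  have := S.inv.ax_le n (S.T x)
  simp only [Sym.inv, S.l] at this
  exact this

lemma Sym.pr_eq (S : Sym) (n m : ℕ) (x y : ℤ × ℤ) : pr n m (S.T x) (S.T y) = pr n m x y := by
  refine le_antisymm ?_ (S.pr_le n m x y)
  have := S.inv.pr_le n m (S.T x) (S.T y)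
  simp only [Sym.inv, S.l] at this
  exact this

/-- reflection in the first axis -/
def symNeg : Sym where
  T p := (p.1, -p.2)
  T' p := (p.1, -p.2)
  l p := by simp
  r p := by simp
  z := by simp
  d p q := by
    simp only
    rw [show -q.2 - -p.2 = -(q.2 - p.2) by ring, abs_neg]

/-- exchange of the axes -/
def symSwap : Sym where
  T p := (p.2, p.1)
  T' p := (p.2, p.1)
  l p := by simp
  r p := by simp
  z := by simp
  d p q := by
    simp only
    ring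

/-- separated by a coordinate axis, the second point strictly on its side -/
def Sep (x y : ℤ × ℤ) : Prop :=
  (0 ≤ x.2 ∧ y.2 < 0) ∨ (x.2 ≤ 0 ∧ 0 < y.2) ∨ (0 ≤ x.1 ∧ y.1 < 0) ∨ (x.1 ≤ 0 ∧ 0 < y.1)

lemma ax_zero {n : ℕ} (hn : 1 ≤ n) : ax n (0, 0) = 0 := by
  unfold ax
  rw [Nat.card_eq_zero]
  left
  constructor
  rintro ⟨w, h1, h2⟩
  rw [← h1.1] at h2
  have := congrArg Fin.val (h1.2.2 h2)
  simp only [Fin.val_last, Fin.val_zero] at this
  omega

lemma base : ∃ K : ℝ, 0 ≤ K ∧ ∀ n m : ℕ, 2 ≤ n → 2 ≤ m → ∀ x y : ℤ × ℤ,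
    0 ≤ x.2 → y.2 < 0 → 2 ≤ |y.1| + |y.2| →
    (ax n x : ℝ) * ax m y ≤ Real.exp (K * (Real.log n ^ 3 + Real.log m ^ 3)) * pr n m x y := by
  obtain ⟨K1, hK1, h1⟩ := a_le_la'
  obtain ⟨K2, hK2, h2⟩ := a_le_ls
  refine ⟨K1 + K2, by positivity, fun n m hn hm x y hx hy hy2 => ?_⟩
  have hln : 0 ≤ Real.log (n : ℝ) ^ 3 := pow_nonneg (Real.log_natCast_nonneg n) 3
  have hlm : 0 ≤ Real.log (m : ℝ) ^ 3 := pow_nonneg (Real.log_natCast_nonneg m) 3
  rcases eq_or_ne x (0, 0) with hx0 | hx0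
  · subst hx0
    rw [ax_zero (by omega)]
    simp only [Nat.cast_zero, zero_mul]
    positivity
  have g1 := h1 n hn n le_rfl x.1 (-x.2) (by omega) (by
    intro h
    obtain ⟨e1, e2⟩ := Prod.mk.inj h
    exact hx0 (Prod.ext e1 (by simpa using e2)))
  rw [TH795.EP.a_ng] at g1
  have g2 := h2 m hm m le_rfl y.1 y.2 (by omega) (by
    intro h
    obtain ⟨e1, e2⟩ := Prod.mk.inj h
    rw [e1, e2] at hy2
    norm_num at hy2)
  rw [← ax_eq] at g1 g2
  have g3 : ((la n x.1 (-x.2) : ℝ)) * ls m y.1 y.2 ≤ pr n m x y := by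
    exact_mod_cast mul_le_pr n m x y
  calc (ax n x : ℝ) * ax m y ≤ (TH795.EP.q n K1 * la n x.1 (-x.2)) *
        (TH795.EP.q m K2 * ls m y.1 y.2) := by
        have p1 := TH795.EP.q_pos n K1
        gcongr
    _ = (TH795.EP.q n K1 * TH795.EP.q m K2) * (la n x.1 (-x.2) * ls m y.1 y.2) := by ring
    _ ≤ Real.exp ((K1 + K2) * (Real.log n ^ 3 + Real.log m ^ 3)) * pr n m x y := by
        have e : TH795.EP.q n K1 * TH795.EP.q m K2 ≤
            Real.exp ((K1 + K2) * (Real.log n ^ 3 + Real.log m ^ 3)) := by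
          unfold TH795.EP.q
          rw [← Real.exp_add]
          apply Real.exp_le_exp.2
          have m1 := mul_nonneg hK1 hlm
          have m2 := mul_nonneg hK2 hln
          linarith
        gcongr

theorem ends : ∃ K : ℝ, 0 ≤ K ∧ ∀ n m : ℕ, 2 ≤ n → 2 ≤ m → ∀ x y : ℤ × ℤ,
    Sep x y → 2 ≤ |y.1| + |y.2| →
    (ax n x : ℝ) * ax m y ≤ Real.exp (K * (Real.log n ^ 3 + Real.log m ^ 3)) * pr n m x y := by
  obtain ⟨K, hK, h⟩ := base
  refine ⟨K, hK, fun n m hn hm x y hs hy => ?_⟩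
  rcases hs with hs | hs | hs | hs
  · exact h n m hn hm x y hs.1 hs.2 hy
  · have := h n m hn hm (symNeg.T x) (symNeg.T y) (by simp only [symNeg]; omega)
      (by simp only [symNeg]; omega) (by simp only [symNeg]; rwa [abs_neg])
    rwa [symNeg.ax_eq, symNeg.ax_eq, symNeg.pr_eq] at this
  · have := h n m hn hm (symSwap.T x) (symSwap.T y) (by simp only [symSwap]; omega)
      (by simp only [symSwap]; omega) (by simp only [symSwap]; rwa [add_comm])
    rwa [symSwap.ax_eq, symSwap.ax_eq, symSwap.pr_eq] at this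
  · have := h n m hn hm (symNeg.T (symSwap.T x)) (symNeg.T (symSwap.T y))
      (by simp only [symNeg, symSwap]; omega) (by simp only [symNeg, symSwap]; omega)
      (by simp only [symNeg, symSwap]; rwa [abs_neg, add_comm])
    rwa [symNeg.ax_eq, symNeg.ax_eq, symNeg.pr_eq, symSwap.ax_eq, symSwap.ax_eq,
      symSwap.pr_eq] at this

/-- number of disjoint pairs -/
noncomputable def D (n : ℕ) : ℕ :=
  Nat.card {q : (Fin (n + 1) → ℤ × ℤ) × (Fin (n + 1) → ℤ × ℤ) //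
    IsSAW n q.1 ∧ IsSAW n q.2 ∧ Disj q.1 q.2}

lemma D_eq (n : ℕ) : D n = a (n + n) := card_pairs n n

lemma D_le (n : ℕ) : (D n : ℝ) ≤ (a n : ℝ) * a n := by
  rw [D_eq, a_eq, a_eq]
  exact H981.cr'_mul n n

lemma D_ge : ∃ B : ℝ, 0 ≤ B ∧ ∀ n : ℕ, 2 ≤ n →
    Real.exp (-(B * Real.log n ^ 2)) * ((a n : ℝ) * a n) ≤ D n := by
  obtain ⟨K, c, C, h⟩ := hy
  obtain ⟨B, hB, hs⟩ := h.short
  refine ⟨4 * B, by positivity, fun n hn => ?_⟩
  have h1 := hs n n (by omega) le_rfl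
  rw [← P_eq, card_pairs, ← D_eq, le_div_iff₀ (mul_pos (a_pos n) (a_pos n))] at h1
  refine le_trans ?_ h1
  have hn0 : (2 : ℝ) ≤ n := by exact_mod_cast hn
  have h2 : Real.log ((n : ℝ) + 1) ≤ 2 * Real.log n := by
    have e : 2 * Real.log (n : ℝ) = Real.log ((n : ℝ) ^ 2) := by rw [Real.log_pow]; norm_num
    rw [e]
    apply Real.log_le_log (by linarith)
    nlinarith
  have h3 : 0 ≤ Real.log ((n : ℝ) + 1) := Real.log_nonneg (by linarith)
  have h4 : Real.log ((n : ℝ) + 1) ^ 2 ≤ (2 * Real.log n) ^ 2 := pow_le_pow_left₀ h3 h2 2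
  have h5 := mul_le_mul_of_nonneg_left h4 hB
  have h6 : Real.exp (-(4 * B * Real.log n ^ 2)) ≤ Real.exp (-(B * Real.log ((n : ℝ) + 1) ^ 2)) := by
    apply Real.exp_le_exp.2
    have e : B * (2 * Real.log (n : ℝ)) ^ 2 = 4 * B * Real.log n ^ 2 := by ring
    linarith
  have p1 := a_pos n
  gcongr

lemma pr_le_mul (n m : ℕ) (x y : ℤ × ℤ) : pr n m x y ≤ ax n x * ax m y := by
  unfold pr ax
  rw [← Nat.card_prod]
  have := finite_ax n x
  have := finite_ax m y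
  refine Nat.card_le_card_of_injective
    (fun q => (⟨q.1.1, q.2.1.1, q.2.2.1⟩, ⟨q.1.2, q.2.1.2.1, q.2.2.2⟩)) ?_
  rintro ⟨⟨w, w'⟩, h⟩ ⟨⟨v, v'⟩, h'⟩ he
  simp only [Prod.mk.injEq, Subtype.mk.injEq] at he
  obtain ⟨rfl, rfl⟩ := he
  rfl

end Pool.Agent.TH262.UL
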