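import Pool.Agent.TH262.UL.Exp

/-!
The exponent of `p n n`, the exponent of `p (N m) m` for `N m` much larger than `m`, and the growth
exponent of `r` determine one another.
-/

set_option autoImplicit false

namespace Pool.Agent.TH262.UL

open Filter Topology

variable {r : ℕ → ℝ} {K c C : ℝ}

lemma Hy.log_nonneg (h : Hy r K c C) (n : ℕ) : 0 ≤ Real.log (r n) := Real.log_nonneg (h.one n)

lemma Hy.log_le (h : Hy r K c C) {n : ℕ} (hn : 2 ≤ n) : Real.log (r n) ≤ K * Real.log n ^ 2 :=
  (Real.log_le_iff_le_exp (h.pos n)).2 (h.up n hn)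

lemma Hy.log_p (h : Hy r K c C) (n m : ℕ) :
    Real.log (p r n m) = Real.log (r (n + m)) - Real.log (r n) - Real.log (r m) := by
  unfold p
  rw [Real.log_div (h.pos _).ne' (mul_pos (h.pos _) (h.pos _)).ne',
    Real.log_mul (h.pos _).ne' (h.pos _).ne']
  ring

lemma tendsto_log_nat : Tendsto (fun n : ℕ => Real.log (n : ℝ)) atTop atTop :=
  Real.tendsto_log_atTop.comp tendsto_natCast_atTop_atTop

/-- growth exponent gives the exponent for equal lengths -/
theorem Hy.grow_diag (h : Hy r K c C) {α : ℝ}
    (hR : Tendsto (fun n : ℕ => Real.log (r n) / Real.log n) atTop (𝓝 α)) :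
    Tendsto (fun n : ℕ => Real.log (p r n n) / Real.log n) atTop (𝓝 (-α)) := by
  have t2 : Tendsto (fun n : ℕ => Real.log (r (n + n)) / Real.log ((n + n : ℕ) : ℝ)) atTop (𝓝 α) :=
    hR.comp (tendsto_atTop_mono (fun n => Nat.le_add_left n n) tendsto_id)
  have t3 : Tendsto (fun n : ℕ => Real.log ((n + n : ℕ) : ℝ) / Real.log n) atTop (𝓝 1) := by
    have t4 : Tendsto (fun n : ℕ => Real.log 2 / Real.log (n : ℝ) + 1) atTop (𝓝 (0 + 1)) :=
      (tendsto_log_nat.const_div_atTop (Real.log 2)).add_const 1
    rw [zero_add] at t4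
    refine t4.congr' ?_
    filter_upwards [eventually_ge_atTop 2] with n hn
    have hn0 : (0 : ℝ) < n := by exact_mod_cast (by omega : 0 < n)
    have hl : 0 < Real.log n := Real.log_pos (by exact_mod_cast (by omega : 1 < n))
    rw [show ((n + n : ℕ) : ℝ) = 2 * n by push_cast; ring, Real.log_mul (by norm_num) hn0.ne']
    field_simp
  have t5 := (t2.mul t3).sub (hR.const_mul 2)
  rw [show α * 1 - 2 * α = -α by ring] at t5
  refine t5.congr' ?_
  filter_upwards [eventually_ge_atTop 2] with n hn
  have hl : 0 < Real.log n := Real.log_pos (by exact_mod_cast (by omega : 1 < n))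
  have hl2 : 0 < Real.log ((n + n : ℕ) : ℝ) := Real.log_pos (by exact_mod_cast (by omega : 1 < n + n))
  rw [h.log_p]
  field_simp
  ring

/-- the exponent for equal lengths gives the growth exponent -/
theorem Hy.diag_grow (h : Hy r K c C) {α : ℝ}
    (hD : Tendsto (fun n : ℕ => Real.log (p r n n) / Real.log n) atTop (𝓝 (-α))) :
    Tendsto (fun n : ℕ => Real.log (r n) / Real.log n) atTop (𝓝 α) := by
  have hK := h.K1
  have key : ∀ ε : ℝ, 0 < ε → ∀ᶠ n : ℕ in atTop,
      (α - ε) * (Real.log n + Real.log 2) ≤ Real.log (r n) ∧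
      Real.log (r n) ≤ (α + ε) * (Real.log n + Real.log 2) := by
    intro ε hε
    obtain ⟨N, hN⟩ := eventually_atTop.1
      (((tendsto_order.1 hD).1 (-α - ε) (by linarith)).and
        ((tendsto_order.1 hD).2 (-α + ε) (by linarith)))
    filter_upwards [eventually_ge_atTop (max N 2)] with n hn
    have hn1 : max N 2 ≤ n := hn
    have hstep : ∀ k : ℕ, max N 2 ≤ k → (-α - ε) * Real.log k ≤ Real.log (r (2 * k)) - 2 * Real.log (r k) ∧
        Real.log (r (2 * k)) - 2 * Real.log (r k) ≤ (-α + ε) * Real.log k := by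
      intro k hk
      have hk2 : 2 ≤ k := (le_max_right _ _).trans hk
      obtain ⟨a1, a2⟩ := hN k ((le_max_left _ _).trans hk)
      have hl : 0 < Real.log k := Real.log_pos (by exact_mod_cast (by omega : 1 < k))
      rw [h.log_p, ← two_mul] at a1 a2
      rw [lt_div_iff₀ hl] at a1
      rw [div_lt_iff₀ hl] at a2
      constructor <;> linarith
    have hlog2 : ∀ k : ℕ, 1 ≤ k → Real.log ((2 * k : ℕ) : ℝ) = Real.log 2 + Real.log k := by
      intro k hk
      have hk0 : (k : ℝ) ≠ 0 := by exact_mod_cast (by omega : k ≠ 0)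
      push_cast
      rw [Real.log_mul (by norm_num) hk0]
    have hsq : ∀ (d : ℝ) (k : ℕ), d * Real.log k ≤ |d| * Real.log k ^ 2 + |d| := by
      intro d k
      have h0 : 0 ≤ Real.log (k : ℝ) := Real.log_natCast_nonneg k
      have h1 : d * Real.log k ≤ |d| * Real.log k := by gcongr; exact le_abs_self d
      have h2 : Real.log (k : ℝ) ≤ Real.log k ^ 2 + 1 := by nlinarith [sq_nonneg (Real.log (k : ℝ) - 1)]
      have h3 : |d| * Real.log k ≤ |d| * (Real.log k ^ 2 + 1) := by gcongr
      linarith
    have hl2a : 0 ≤ Real.log 2 := by have := log_two_ge; linarith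
    constructor
    · have := halving (F := fun k => -Real.log (r k) + (α - ε) * (Real.log k + Real.log 2))
        (A := |α - ε|) (B := |α - ε| + |α - ε| * Real.log 2) (N := max N 2) ?_ ?_ hn1
        (by omega)
      · linarith
      · intro k hk
        obtain ⟨a1, a2⟩ := hstep k hk
        rw [hlog2 k (by omega)]
        linarith
      · intro k hk
        have a1 := hsq (α - ε) k
        have a2 : (α - ε) * Real.log 2 ≤ |α - ε| * Real.log 2 := by gcongr; exact le_abs_self _
        have a3 := h.log_nonneg k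
        linarith
    · have := halving (F := fun k => Real.log (r k) - (α + ε) * (Real.log k + Real.log 2))
        (A := K + |α + ε|) (B := Real.log (r 1) + |α + ε| + |α + ε| * Real.log 2) (N := max N 2) ?_ ?_
        hn1 (by omega)
      · linarith
      · intro k hk
        obtain ⟨a1, a2⟩ := hstep k hk
        rw [hlog2 k (by omega)]
        linarith
      · intro k hk
        have a1 := hsq (-(α + ε)) k
        rw [abs_neg] at a1
        have a2 : -(α + ε) * Real.log 2 ≤ |α + ε| * Real.log 2 := by
          gcongr; exact neg_le_abs _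
        have a3 : Real.log (r k) ≤ K * Real.log k ^ 2 + Real.log (r 1) := by
          have a4 := h.log_nonneg 1
          rcases Nat.lt_or_ge k 2 with h2 | h2
          · have : k = 1 := by omega
            subst this
            have : 0 ≤ K * Real.log ((1 : ℕ) : ℝ) ^ 2 := by positivity
            linarith
          · have := h.log_le h2
            linarith
        have e : (K + |α + ε|) * Real.log k ^ 2 = K * Real.log k ^ 2 + |α + ε| * Real.log k ^ 2 := by ring
        rw [e]
        linarith
  -- conclude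
  have hq : Tendsto (fun n : ℕ => (Real.log n + Real.log 2) / Real.log (n : ℝ)) atTop (𝓝 1) := by
    have t4 : Tendsto (fun n : ℕ => 1 + Real.log 2 / Real.log (n : ℝ)) atTop (𝓝 (1 + 0)) :=
      tendsto_const_nhds.add (tendsto_log_nat.const_div_atTop (Real.log 2))
    rw [add_zero] at t4
    refine t4.congr' ?_
    filter_upwards [eventually_ge_atTop 2] with n hn
    have hl : 0 < Real.log n := Real.log_pos (by exact_mod_cast (by omega : 1 < n))
    field_simp
  rw [tendsto_order]
  constructor
  · intro a ha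
    have hε : 0 < (α - a) / 2 := by linarith
    have t1 : Tendsto (fun n : ℕ => (α - (α - a) / 2) * ((Real.log n + Real.log 2) / Real.log (n : ℝ)))
        atTop (𝓝 ((α - (α - a) / 2) * 1)) := hq.const_mul _
    have t2 := (tendsto_order.1 t1).1 a (by linarith)
    filter_upwards [key _ hε, t2, eventually_ge_atTop 2] with n h1 h2 hn
    have hl : 0 < Real.log n := Real.log_pos (by exact_mod_cast (by omega : 1 < n))
    refine h2.trans_le ?_
    rw [← mul_div_assoc]
    exact div_le_div_of_nonneg_right h1.1 hl.le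
  · intro a ha
    have hε : 0 < (a - α) / 2 := by linarith
    have t1 : Tendsto (fun n : ℕ => (α + (a - α) / 2) * ((Real.log n + Real.log 2) / Real.log (n : ℝ)))
        atTop (𝓝 ((α + (a - α) / 2) * 1)) := hq.const_mul _
    have t2 := (tendsto_order.1 t1).2 a (by linarith)
    filter_upwards [key _ hε, t2, eventually_ge_atTop 2] with n h1 h2 hn
    have hl : 0 < Real.log n := Real.log_pos (by exact_mod_cast (by omega : 1 < n))
    refine lt_of_le_of_lt ?_ h2
    rw [← mul_div_assoc]
    exact div_le_div_of_nonneg_right h1.2 hl.le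

/-- for a much longer first walk the probability is `1 / r m` up to constants -/
lemma Hy.far (h : Hy r K c C) {N : ℕ → ℕ} (hN : Tendsto N atTop atTop)
    (hs : Tendsto (fun m : ℕ => (m : ℝ) * Real.log (N m) / Real.sqrt (N m)) atTop (𝓝 0)) :
    ∃ D : ℝ, ∀ᶠ m : ℕ in atTop, |Real.log (p r (N m) m) + Real.log (r m)| ≤ D := by
  obtain ⟨κ, hκ, hκ1, hcomp⟩ := h.comp
  have hc := h.c0
  have hC := h.C1
  refine ⟨|Real.log (c / 2)| + |Real.log (2 * C)|, ?_⟩
  filter_upwards [(tendsto_order.1 hs).2 κ hκ, hN.eventually_ge_atTop 2] with m h1 h2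
  have hn0 : (0 : ℝ) < N m := by exact_mod_cast (by omega : 0 < N m)
  have hsn : 0 < Real.sqrt (N m) := Real.sqrt_pos.2 hn0
  rw [div_lt_iff₀ hsn] at h1
  obtain ⟨a1, a2⟩ := hcomp (N m) m h2 h1.le
  have pn := h.pos (N m)
  have pnm := h.pos (N m + m)
  rw [h.log_p]
  have b1 : Real.log (c / 2) + Real.log (r (N m)) ≤ Real.log (r (N m + m)) := by
    rw [← Real.log_mul (by positivity) pn.ne']
    exact Real.log_le_log (by positivity) a1
  have b2 : Real.log (r (N m + m)) ≤ Real.log (2 * C) + Real.log (r (N m)) := by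
    rw [← Real.log_mul (by positivity) pn.ne']
    exact Real.log_le_log (by positivity) a2
  have c1 := neg_abs_le (Real.log (c / 2))
  have c2 := le_abs_self (Real.log (2 * C))
  have c3 := abs_nonneg (Real.log (c / 2))
  have c4 := abs_nonneg (Real.log (2 * C))
  rw [abs_le]
  constructor <;> linarith

theorem Hy.far_iff (h : Hy r K c C) {N : ℕ → ℕ} (hN : Tendsto N atTop atTop)
    (hs : Tendsto (fun m : ℕ => (m : ℝ) * Real.log (N m) / Real.sqrt (N m)) atTop (𝓝 0)) {α : ℝ} :
    Tendsto (fun m : ℕ => Real.log (p r (N m) m) / Real.log m) atTop (𝓝 (-α)) ↔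
      Tendsto (fun n : ℕ => Real.log (r n) / Real.log n) atTop (𝓝 α) := by
  obtain ⟨D, hD⟩ := h.far hN hs
  have hz : Tendsto (fun m : ℕ => (Real.log (p r (N m) m) + Real.log (r m)) / Real.log m) atTop (𝓝 0) := by
    have t1 : Tendsto (fun m : ℕ => D / Real.log (m : ℝ)) atTop (𝓝 0) :=
      tendsto_log_nat.const_div_atTop D
    refine squeeze_zero_norm' ?_ t1
    filter_upwards [hD, eventually_ge_atTop 2] with m h1 hm
    have hl : 0 < Real.log m := Real.log_pos (by exact_mod_cast (by omega : 1 < m))
    rw [Real.norm_eq_abs, abs_div, abs_of_pos hl]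
    exact div_le_div_of_nonneg_right h1 hl.le
  constructor
  · intro hM
    have := hz.sub hM
    rw [show (0 : ℝ) - -α = α by ring] at this
    refine this.congr fun m => ?_
    ring
  · intro hR
    have := hz.sub hR
    rw [zero_sub] at this
    refine this.congr fun m => ?_
    ring

theorem Hy.exponents (h : Hy r K c C) {N : ℕ → ℕ} (hN : Tendsto N atTop atTop)
    (hs : Tendsto (fun m : ℕ => (m : ℝ) * Real.log (N m) / Real.sqrt (N m)) atTop (𝓝 0)) {α : ℝ} :
    Tendsto (fun m : ℕ => Real.log (p r (N m) m) / Real.log m) atTop (𝓝 (-α)) ↔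
      Tendsto (fun n : ℕ => Real.log (p r n n) / Real.log n) atTop (𝓝 (-α)) :=
  (h.far_iff hN hs).trans ⟨h.grow_diag, h.diag_grow⟩

end Pool.Agent.TH262.UL
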