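import Pool.Agent.TH262.UL.Seq

/-!
Non-intersection probabilities `p n m = r (n + m) / (r n * r m)`: lower bound in terms of the shorter
length, and the equivalence of the exponents for equal and for very different lengths.
-/

set_option autoImplicit false

namespace Pool.Agent.TH262.UL

open Filter Topology

/-- the non-intersection probability -/
noncomputable def p (r : ℕ → ℝ) (n m : ℕ) : ℝ := r (n + m) / (r n * r m)

variable {r : ℕ → ℝ} {K c C : ℝ}

lemma sq_log_ge {m : ℕ} (hm : 1 ≤ m) : (1 : ℝ) / 4 ≤ Real.log ((m : ℝ) + 1) ^ 2 := by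
  have h1 : (1 : ℝ) ≤ m := by exact_mod_cast hm
  have h2 : Real.log 2 ≤ Real.log ((m : ℝ) + 1) := Real.log_le_log (by norm_num) (by linarith)
  have h3 := log_two_ge
  nlinarith

lemma Hy.up' (h : Hy r K c C) : ∃ A : ℝ, 0 ≤ A ∧ ∀ m : ℕ, 1 ≤ m →
    r m ≤ Real.exp (A * Real.log ((m : ℝ) + 1) ^ 2) := by
  have hK := h.K1
  have h1 : 0 ≤ Real.log (r 1) := Real.log_nonneg (h.one 1)
  refine ⟨K + 4 * Real.log (r 1), by positivity, fun m hm => ?_⟩
  have hq := sq_log_ge hm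
  obtain ⟨q, hqq⟩ : ∃ q, q = Real.log ((m : ℝ) + 1) ^ 2 := ⟨_, rfl⟩
  rw [← hqq] at hq ⊢
  rcases Nat.lt_or_ge m 2 with h2 | h2
  · have : m = 1 := by omega
    subst this
    rw [← Real.log_le_iff_le_exp (h.pos 1)]
    have a1 : 0 ≤ K * q := by nlinarith
    have a2 : Real.log (r 1) * (1 / 4) ≤ Real.log (r 1) * q := mul_le_mul_of_nonneg_left hq h1
    have a3 : (K + 4 * Real.log (r 1)) * q = K * q + 4 * (Real.log (r 1) * q) := by ring
    rw [a3]
    linarith
  · refine (h.up m h2).trans (Real.exp_le_exp.2 ?_)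
    have hm0 : (2 : ℝ) ≤ m := by exact_mod_cast h2
    have h3 : Real.log m ≤ Real.log ((m : ℝ) + 1) := Real.log_le_log (by linarith) (by linarith)
    have h4 : 0 ≤ Real.log m := Real.log_natCast_nonneg m
    have h5 : Real.log m ^ 2 ≤ q := by rw [hqq]; exact pow_le_pow_left₀ h4 h3 2
    have a1 : K * Real.log m ^ 2 ≤ K * q := mul_le_mul_of_nonneg_left h5 (by linarith)
    have a2 : 0 ≤ 4 * Real.log (r 1) * q := by
      have : 0 ≤ q := by linarith
      positivity
    have a3 : (K + 4 * Real.log (r 1)) * q = K * q + 4 * Real.log (r 1) * q := by ring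
    rw [a3]
    linarith

/-- outside the range of `Hy.comp` the longer length is at most a power of the shorter -/
lemma log_le_of_large {κ : ℝ} (hκ : 0 < κ) (hκ1 : κ ≤ 1) {n m : ℕ} (hm : 1 ≤ m) (h2 : 2 ≤ n)
    (h3 : κ * Real.sqrt n < (m : ℝ) * Real.log n) :
    Real.log ((n : ℝ) + 1) ≤ 5 * Real.log ((m : ℝ) + 1) + 4 * Real.log (4 / κ) := by
  have hm1 : (1 : ℝ) ≤ m := by exact_mod_cast hm
  have hn0 : (0 : ℝ) < n := by exact_mod_cast (by omega : 0 < n)
  have hn2 : (2 : ℝ) ≤ n := by exact_mod_cast h2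
  obtain ⟨s, hs⟩ : ∃ s, s = Real.sqrt (Real.sqrt n) := ⟨_, rfl⟩
  have hs0 : 0 < s := by rw [hs]; exact Real.sqrt_pos.2 (Real.sqrt_pos.2 hn0)
  have hs2 : s ^ 2 = Real.sqrt n := by rw [hs]; exact Real.sq_sqrt (Real.sqrt_nonneg _)
  have hs4 : s ^ 4 = n := by
    rw [show s ^ 4 = (s ^ 2) ^ 2 by ring, hs2, Real.sq_sqrt hn0.le]
  have hlog4 : Real.log n = 4 * Real.log s := by
    rw [← hs4, Real.log_pow]; norm_num
  have h5 : Real.log s ≤ s := by
    have := Real.log_le_sub_one_of_pos hs0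
    linarith
  have h6 : κ * s < 4 * m := by
    rw [← hs2, hlog4] at h3
    have a1 : (m : ℝ) * (4 * Real.log s) ≤ m * (4 * s) := by gcongr
    have e : κ * s ^ 2 = κ * s * s := by ring
    have e2 : (m : ℝ) * (4 * s) = 4 * m * s := by ring
    rw [e] at h3
    exact lt_of_mul_lt_mul_right (by linarith) hs0.le
  have h7 : s ≤ 4 / κ * m := by
    rw [div_mul_eq_mul_div, le_div_iff₀ hκ]
    linarith
  have h8 : Real.log s ≤ Real.log (4 / κ) + Real.log m := by
    rw [← Real.log_mul (by positivity) (by positivity)]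
    exact Real.log_le_log hs0 h7
  have h9 : Real.log m ≤ Real.log ((m : ℝ) + 1) := Real.log_le_log (by linarith) (by linarith)
  have h10 : Real.log ((n : ℝ) + 1) ≤ Real.log n + Real.log 2 := by
    rw [← Real.log_mul (by positivity) (by norm_num)]
    exact Real.log_le_log (by linarith) (by linarith)
  have h12 : Real.log 2 ≤ Real.log ((m : ℝ) + 1) := Real.log_le_log (by norm_num) (by linarith)
  linarith

/-- first case of the lower bound: the second walk is much shorter -/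
lemma Hy.short1 (h : Hy r K c C) {n m : ℕ} (h1 : c / 2 * r n ≤ r (n + m)) {E A L : ℝ}
    (hmm : r m ≤ Real.exp (A * L ^ 2)) (hE : A * L ^ 2 + Real.log (2 / c) ≤ E) :
    Real.exp (-E) ≤ p r n m := by
  have hc := h.c0
  have pm := h.pos m
  have pn := h.pos n
  have h2 : c / 2 / r m ≤ p r n m := by
    unfold p
    rw [div_le_div_iff₀ pm (by positivity)]
    calc c / 2 * (r n * r m) = (c / 2 * r n) * r m := by ring
      _ ≤ r (n + m) * r m := by gcongr
  refine le_trans ?_ h2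
  rw [le_div_iff₀ pm]
  calc Real.exp (-E) * r m ≤ Real.exp (-(A * L ^ 2 + Real.log (2 / c))) * Real.exp (A * L ^ 2) := by
        gcongr
    _ = Real.exp (-(Real.log (2 / c))) := by
        rw [← Real.exp_add]; congr 1; ring
    _ = c / 2 := by
        rw [Real.exp_neg, Real.exp_log (by positivity), inv_div]

/-- second case of the lower bound -/
lemma Hy.short2 (h : Hy r K c C) {n m : ℕ} {E X Y : ℝ}
    (hn : r n ≤ Real.exp X) (hmm : r m ≤ Real.exp Y) (hE : X + Y ≤ E) :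
    Real.exp (-E) ≤ p r n m := by
  have pm := h.pos m
  have pn := h.pos n
  have h2 : 1 / (r n * r m) ≤ p r n m := by
    unfold p
    gcongr
    exact h.one _
  refine le_trans ?_ h2
  rw [le_div_iff₀ (by positivity)]
  calc Real.exp (-E) * (r n * r m) ≤ Real.exp (-(X + Y)) * (Real.exp X * Real.exp Y) := by gcongr
    _ = 1 := by
        rw [← Real.exp_add, ← Real.exp_add]; simp

/-- the lower bound depends on the shorter length only -/
theorem Hy.short (h : Hy r K c C) : ∃ B : ℝ, 0 ≤ B ∧ ∀ n m : ℕ, 1 ≤ m → m ≤ n →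
    Real.exp (-(B * Real.log ((m : ℝ) + 1) ^ 2)) ≤ p r n m := by
  have hK := h.K1
  have hc := h.c0
  have hc1 := h.c1
  obtain ⟨A, hA, hup⟩ := h.up'
  obtain ⟨κ, hκ, hκ1, hcomp⟩ := h.comp
  have hlc : 0 ≤ Real.log (2 / c) := Real.log_nonneg (by rw [le_div_iff₀ hc]; linarith)
  have hlk : 0 ≤ Real.log (4 / κ) := Real.log_nonneg (by rw [le_div_iff₀ hκ]; linarith)
  obtain ⟨Q, hQ⟩ : ∃ Q, Q = 5 + 8 * Real.log (4 / κ) := ⟨_, rfl⟩
  have hQ4 : 5 ≤ Q := by linarith
  refine ⟨A + A * Q ^ 2 + 4 * Real.log (2 / c), by positivity, fun n m hm hmn => ?_⟩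
  have hq := sq_log_ge hm
  have hmm := hup m hm
  have hm1 : (1 : ℝ) ≤ m := by exact_mod_cast hm
  have hL2 : 1 / 2 ≤ Real.log ((m : ℝ) + 1) :=
    log_two_ge.trans (Real.log_le_log (by norm_num) (by linarith))
  by_cases hcase : 2 ≤ n ∧ (m : ℝ) * Real.log n ≤ κ * Real.sqrt n
  · obtain ⟨h1, -⟩ := hcomp n m hcase.1 hcase.2
    refine h.short1 h1 hmm ?_
    obtain ⟨q, hqq⟩ : ∃ q, q = Real.log ((m : ℝ) + 1) ^ 2 := ⟨_, rfl⟩
    rw [← hqq] at hq ⊢
    have a1 : 0 ≤ A * Q ^ 2 * q := by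
      have : 0 ≤ q := by linarith
      positivity
    have a2 : Real.log (2 / c) * (1 / 4) ≤ Real.log (2 / c) * q := mul_le_mul_of_nonneg_left hq hlc
    linarith
  · have hn1 : 1 ≤ n := by omega
    have hlogn : Real.log ((n : ℝ) + 1) ≤ Q * Real.log ((m : ℝ) + 1) := by
      rcases Nat.lt_or_ge n 2 with h2 | h2
      · have : n = 1 := by omega
        subst this
        have e : Real.log (((1 : ℕ) : ℝ) + 1) ≤ Real.log ((m : ℝ) + 1) :=
          Real.log_le_log (by norm_num) (by push_cast; linarith)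
        have : 0 ≤ (Q - 1) * Real.log ((m : ℝ) + 1) := by
          apply mul_nonneg <;> linarith
        linarith
      · have h3 : κ * Real.sqrt n < (m : ℝ) * Real.log n := by
          by_contra h4
          exact hcase ⟨h2, not_lt.1 h4⟩
        have h4 := log_le_of_large hκ hκ1 hm h2 h3
        have h5 : Real.log (4 / κ) * (1 / 2) ≤ Real.log (4 / κ) * Real.log ((m : ℝ) + 1) :=
          mul_le_mul_of_nonneg_left hL2 hlk
        rw [hQ]
        linarith
    have h0 : 0 ≤ Real.log ((n : ℝ) + 1) := Real.log_nonneg (by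
        have : (0 : ℝ) ≤ n := Nat.cast_nonneg n
        linarith)
    refine h.short2 (hup n hn1) hmm ?_
    have a1 : Real.log ((n : ℝ) + 1) ^ 2 ≤ (Q * Real.log ((m : ℝ) + 1)) ^ 2 :=
      pow_le_pow_left₀ h0 hlogn 2
    have a2 := mul_le_mul_of_nonneg_left a1 hA
    have a3 : A * (Q * Real.log ((m : ℝ) + 1)) ^ 2 = A * Q ^ 2 * Real.log ((m : ℝ) + 1) ^ 2 := by ring
    rw [a3] at a2
    have a4 : 0 ≤ 4 * Real.log (2 / c) * Real.log ((m : ℝ) + 1) ^ 2 := by positivity
    linarith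

/-- a function with `F n ≤ F (2 n) / 2` and slow growth is not positive -/
lemma halving {F : ℕ → ℝ} {A B : ℝ} {N : ℕ} (h2 : ∀ n, N ≤ n → F n ≤ F (2 * n) / 2)
    (hF : ∀ n : ℕ, 1 ≤ n → F n ≤ A * Real.log n ^ 2 + B) {n : ℕ} (hn : N ≤ n) (hn1 : 1 ≤ n) :
    F n ≤ 0 := by
  have h3 : ∀ J : ℕ, F n ≤ (1 / 2) ^ J * F (2 ^ J * n) := by
    intro J
    induction J with
    | zero => simp
    | succ J ih =>
      refine ih.trans ?_
      have h4 : N ≤ 2 ^ J * n := hn.trans (Nat.le_mul_of_pos_left n (by positivity))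
      have h5 := h2 _ h4
      have e : 2 * (2 ^ J * n) = 2 ^ (J + 1) * n := by ring
      rw [e] at h5
      calc (1 / 2 : ℝ) ^ J * F (2 ^ J * n) ≤ (1 / 2) ^ J * (F (2 ^ (J + 1) * n) / 2) := by gcongr
        _ = _ := by rw [pow_succ]; ring
  have h6 : ∀ J : ℕ, F n ≤ |A| * (2 * Real.log n ^ 2) * (1 / 2) ^ J + 2 * |A| * ((J : ℝ) ^ 2 * (1 / 2) ^ J)
      + |B| * (1 / 2) ^ J := by
    intro J
    refine (h3 J).trans ?_
    have h7 : 1 ≤ 2 ^ J * n := Nat.one_le_iff_ne_zero.2 (by positivity)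
    have h8 := hF _ h7
    have hn0 : (0 : ℝ) < n := by exact_mod_cast hn1
    have e : Real.log ((2 ^ J * n : ℕ) : ℝ) = J * Real.log 2 + Real.log n := by
      push_cast
      rw [Real.log_mul (by positivity) hn0.ne', Real.log_pow]
    have hl2 : Real.log 2 ≤ 1 := by have := Real.log_two_lt_d9; linarith
    have hl0 : 0 ≤ Real.log 2 := by have := Real.log_two_gt_d9; linarith
    have h9 : Real.log ((2 ^ J * n : ℕ) : ℝ) ^ 2 ≤ 2 * Real.log n ^ 2 + 2 * (J : ℝ) ^ 2 := by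
      rw [e]
      have hJ : (J : ℝ) * Real.log 2 ≤ J := by nlinarith [Nat.cast_nonneg (α := ℝ) J]
      have hJ0 : 0 ≤ (J : ℝ) * Real.log 2 := by positivity
      have hJ2 : ((J : ℝ) * Real.log 2) ^ 2 ≤ (J : ℝ) ^ 2 := pow_le_pow_left₀ hJ0 hJ 2
      nlinarith [sq_nonneg ((J : ℝ) * Real.log 2 - Real.log n)]
    have h10 : A * Real.log ((2 ^ J * n : ℕ) : ℝ) ^ 2 ≤
        |A| * (2 * Real.log n ^ 2 + 2 * (J : ℝ) ^ 2) := by
      calc A * Real.log ((2 ^ J * n : ℕ) : ℝ) ^ 2 ≤ |A| * Real.log ((2 ^ J * n : ℕ) : ℝ) ^ 2 := by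
            gcongr; exact le_abs_self A
        _ ≤ _ := by gcongr
    calc (1 / 2 : ℝ) ^ J * F (2 ^ J * n)
        ≤ (1 / 2) ^ J * (|A| * (2 * Real.log n ^ 2 + 2 * (J : ℝ) ^ 2) + |B|) := by
          gcongr
          linarith [le_abs_self B]
      _ = _ := by ring
  have t1 : Tendsto (fun J : ℕ => (1 / 2 : ℝ) ^ J) atTop (𝓝 0) :=
    tendsto_pow_atTop_nhds_zero_of_lt_one (by norm_num) (by norm_num)
  have t2 : Tendsto (fun J : ℕ => (J : ℝ) ^ 2 * (1 / 2 : ℝ) ^ J) atTop (𝓝 0) :=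
    tendsto_pow_const_mul_const_pow_of_abs_lt_one 2 (by norm_num [abs_of_pos])
  have t3 := ((t1.const_mul (|A| * (2 * Real.log n ^ 2))).add (t2.const_mul (2 * |A|))).add
    (t1.const_mul |B|)
  simp only [mul_zero, add_zero] at t3
  exact ge_of_tendsto' t3 h6

end Pool.Agent.TH262.UL
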