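import Pool.Agent.TH262.UL.Equiv
import Pool.Agent.TH262.UL.Count
import Pool.Agent.W387.Q.Walk
import Pool.Agent.TH508.LT.Gap2
import Pool.Agent.TH508.LT.Fin2

/-!
The square lattice satisfies the hypotheses of `Hy`.
-/

set_option autoImplicit false

namespace Pool.Agent.TH262.UL

open Filter Topology

lemma a_eq (n : ℕ) : (a n : ℝ) = H981.cr' n := by
  rw [H981.cr'_eq]; rfl

lemma a_eq' (n : ℕ) : (a n : ℝ) = ((Pool.Agent.H976R2.SW n).card : ℝ) := by
  rw [a_eq, Pool.Agent.H739K.SWR.card_eq_cr']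

/-- `a n / μ ^ n` -/
noncomputable def rr (n : ℕ) : ℝ := (a n : ℝ) / H981.mu ^ n

lemma a_pos (n : ℕ) : (0 : ℝ) < a n := by
  have := H981.one_le_cr' n
  rw [a_eq]; linarith

lemma g_tendsto : Tendsto (fun n : ℕ => g n) atTop (𝓝 0) := by
  have h := (isLittleO_log_rpow_atTop (r := 1 / 2) (by norm_num)).tendsto_div_nhds_zero
  have h2 := h.comp (tendsto_natCast_atTop_atTop (R := ℝ))
  refine h2.congr fun n => ?_
  simp only [Function.comp, g, Real.sqrt_eq_rpow]

lemma Hy_of {r : ℕ → ℝ} {K C : ℝ} (K1 : 1 ≤ K) (C1 : 1 ≤ C) (one : ∀ n, 1 ≤ r n)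
    (up : ∀ n : ℕ, 2 ≤ n → r n ≤ Real.exp (K * Real.log n ^ 2))
    (rat : ∀ n : ℕ, 2 ≤ n → |r (n + 2) / r n - 1| ≤ K * g n)
    (up1 : ∀ n, r (n + 1) ≤ C * r n) : ∃ c, Hy r K c C := by
  have h1 : ∀ᶠ n : ℕ in atTop, K * g n < 1 / 2 := by
    have := g_tendsto.const_mul K
    rw [mul_zero] at this
    exact (tendsto_order.1 this).2 _ (by norm_num)
  obtain ⟨N, hN⟩ := eventually_atTop.1 (h1.and (eventually_ge_atTop 2))
  obtain ⟨M, hM⟩ : ∃ M, M = ∑ k ∈ Finset.range (N + 1), r k := ⟨_, rfl⟩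
  have hpos : ∀ n, 0 < r n := fun n => lt_of_lt_of_le one_pos (one n)
  have hM1 : ∀ n, n ≤ N → r n ≤ M := by
    intro n hn
    rw [hM]
    exact Finset.single_le_sum (f := r) (fun k _ => (hpos k).le) (Finset.mem_range.2 (by omega))
  have hM2 : 1 ≤ M := (one 0).trans (hM1 0 (Nat.zero_le _))
  refine ⟨1 / (2 * C * M), K1, by positivity, ?_, C1, one, up, rat, ?_, up1⟩
  · rw [div_le_one (by positivity)]
    nlinarith
  · intro n
    rcases Nat.lt_or_ge n N with h2 | h2
    · have h3 := hM1 n h2.le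
      have h4 := one (n + 1)
      rw [one_div, inv_mul_le_iff₀ (by positivity)]
      have h5 : 1 ≤ 2 * C * r (n + 1) := by nlinarith
      calc r n ≤ M := h3
        _ ≤ 2 * C * r (n + 1) * M := by nlinarith
        _ = _ := by ring
    · obtain ⟨h3, h4⟩ := hN n h2
      have h5 := abs_le.1 ((rat n h4).trans h3.le)
      have hp := hpos n
      have e : r (n + 2) = r (n + 2) / r n * r n := by field_simp
      have h6 : 1 / 2 * r n ≤ r (n + 2) := by
        rw [e]; nlinarith [h5.1]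
      have h7 := up1 (n + 1)
      have h8 := hpos (n + 1)
      rw [one_div, inv_mul_le_iff₀ (by positivity)]
      have h9 : r n ≤ 2 * C * r (n + 1) := by
        have : r (n + 1 + 1) = r (n + 2) := rfl
        linarith
      have h10 : 0 ≤ 2 * C * r (n + 1) := by positivity
      calc r n ≤ 2 * C * r (n + 1) := h9
        _ ≤ 2 * C * r (n + 1) * M := by nlinarith
        _ = _ := by ring

theorem hy : ∃ K c C : ℝ, Hy rr K c C := by
  obtain ⟨K1, hK1, h1⟩ := Pool.Agent.TH508.LT.sq_upper2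
  obtain ⟨K2, h2⟩ := Pool.Agent.W387.Q.SWF.count
  have hmu := H981.mu_pos
  have hc1 : H981.mu ≤ H981.cr' 1 := by
    have := H981.mu_pow_le 1
    rwa [pow_one] at this
  have hrat : ∀ n : ℕ, 2 ≤ n → |rr (n + 2) / rr n - 1| ≤ K2 / H981.mu ^ 2 * g n := by
    intro n hn
    have h3 := h2 n hn
    rw [← a_eq', ← a_eq'] at h3
    have e2 : Pool.Agent.W387.Q.rt n = g n := Pool.Agent.TH508.LT.rN_eq hn
    rw [e2] at h3
    have ha := a_pos n
    have e : rr (n + 2) / rr n - 1 = ((a (n + 2) : ℝ) / a n - H981.mu ^ 2) / H981.mu ^ 2 := by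
      unfold rr
      rw [pow_add]
      field_simp
    rw [e, abs_div, abs_of_pos (by positivity : (0 : ℝ) < H981.mu ^ 2)]
    rw [div_mul_eq_mul_div]
    exact div_le_div_of_nonneg_right h3 (by positivity)
  obtain ⟨c, hc⟩ := Hy_of (r := rr) (K := max (max K1 (K2 / H981.mu ^ 2)) 1) (C := H981.cr' 1 / H981.mu)
    (le_max_right _ _) (by rw [le_div_iff₀ hmu]; linarith)
    (fun n => by
      unfold rr
      rw [le_div_iff₀ (by positivity), a_eq, one_mul]
      exact H981.mu_pow_le n)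
    (fun n hn => by
      unfold rr
      rw [div_le_iff₀ (by positivity), a_eq]
      refine (h1 n hn).trans ?_
      rw [mul_comm]
      gcongr
      exact (le_max_left _ _).trans (le_max_left _ _))
    (fun n hn => by
      refine (hrat n hn).trans ?_
      have := g_nonneg n
      gcongr
      exact (le_max_right _ _).trans (le_max_left _ _))
    (fun n => by
      unfold rr
      rw [a_eq, a_eq, div_le_iff₀ (by positivity)]
      have h4 := H981.cr'_mul n 1
      calc H981.cr' (n + 1) ≤ H981.cr' n * H981.cr' 1 := h4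
        _ = H981.cr' 1 / H981.mu * (H981.cr' n / H981.mu ^ n) * H981.mu ^ (n + 1) := by
          rw [pow_succ]; field_simp)
  exact ⟨_, c, _, hc⟩

/-- the non-intersection probability -/
lemma P_eq (n m : ℕ) : ((Nat.card {q : (Fin (n + 1) → ℤ × ℤ) × (Fin (m + 1) → ℤ × ℤ) //
    IsSAW n q.1 ∧ IsSAW m q.2 ∧ Disj q.1 q.2} : ℝ) / (a n * a m)) = p rr n m := by
  rw [card_pairs]
  unfold p rr
  have hmu := H981.mu_pos
  have h1 := a_pos n
  have h2 := a_pos m
  rw [pow_add]
  field_simp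

end Pool.Agent.TH262.UL
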