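import Mathlib

/-!
Analysis for walks of different lengths: `r n = a n / μ^n` with `1 ≤ r`, `r n ≤ exp (K log² n)` and
`|r (n+2) / r n - 1| ≤ K log n / √n`.
-/

set_option autoImplicit false

namespace Pool.Agent.TH262.UL

open Filter Topology

/-- the rate -/
noncomputable def g (n : ℕ) : ℝ := Real.log n / Real.sqrt n

lemma g_nonneg (n : ℕ) : 0 ≤ g n := by
  unfold g
  have := Real.log_natCast_nonneg n
  positivity

lemma log_two_ge : (1 : ℝ) / 2 ≤ Real.log 2 := by
  have := Real.log_two_gt_d9; linarith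

lemma g_le {n x : ℕ} (hn : 2 ≤ n) (hx : n ≤ x) : g x ≤ 5 * g n := by
  have hn0 : (0 : ℝ) < n := by exact_mod_cast (by omega : 0 < n)
  have hx0 : (0 : ℝ) < x := by exact_mod_cast (by omega : 0 < x)
  have hnx : (n : ℝ) ≤ x := by exact_mod_cast hx
  have hl : (1 : ℝ) / 2 ≤ Real.log n := log_two_ge.trans
    (Real.log_le_log (by norm_num) (by exact_mod_cast hn))
  have hsn : 0 < Real.sqrt n := Real.sqrt_pos.2 hn0
  have hsx : 0 < Real.sqrt x := Real.sqrt_pos.2 hx0
  have hss : Real.sqrt n ≤ Real.sqrt x := Real.sqrt_le_sqrt hnx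
  have h1 : Real.log x ≤ Real.log n + 2 * (Real.sqrt x / Real.sqrt n) := by
    have e : Real.log (Real.sqrt x / Real.sqrt n) = Real.log x / 2 - Real.log n / 2 := by
      rw [Real.log_div hsx.ne' hsn.ne', Real.log_sqrt hx0.le, Real.log_sqrt hn0.le]
    have := Real.log_le_sub_one_of_pos (div_pos hsx hsn)
    rw [e] at this
    linarith
  unfold g
  rw [div_le_iff₀ hsx]
  have h2 : Real.sqrt x / Real.sqrt n ≤ 2 * (Real.log n * (Real.sqrt x / Real.sqrt n)) := by
    have : 0 ≤ Real.sqrt x / Real.sqrt n := by positivity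
    nlinarith
  have h3 : 1 ≤ Real.sqrt x / Real.sqrt n := by rw [le_div_iff₀ hsn]; linarith
  have e3 : 5 * (Real.log n / Real.sqrt n) * Real.sqrt x =
      5 * (Real.log n * (Real.sqrt x / Real.sqrt n)) := by ring
  rw [e3]
  have h4 : Real.log n ≤ Real.log n * (Real.sqrt x / Real.sqrt n) := by nlinarith
  linarith

/-- the hypotheses on `r` -/
structure Hy (r : ℕ → ℝ) (K c C : ℝ) : Prop where
  K1 : 1 ≤ K
  c0 : 0 < c
  c1 : c ≤ 1
  C1 : 1 ≤ C
  one : ∀ n, 1 ≤ r n
  up : ∀ n : ℕ, 2 ≤ n → r n ≤ Real.exp (K * Real.log n ^ 2)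
  rat : ∀ n : ℕ, 2 ≤ n → |r (n + 2) / r n - 1| ≤ K * g n
  lo1 : ∀ n, c * r n ≤ r (n + 1)
  up1 : ∀ n, r (n + 1) ≤ C * r n

variable {r : ℕ → ℝ} {K c C : ℝ}

lemma Hy.pos (h : Hy r K c C) (n : ℕ) : 0 < r n := lt_of_lt_of_le one_pos (h.one n)

/-- products of ratios -/
lemma Hy.prod (h : Hy r K c C) {n : ℕ} (hn : 2 ≤ n) (l : ℕ) :
    |r (n + 2 * l) / r n - 1| ≤ (1 + 5 * K * g n) ^ l - 1 := by
  have hK := h.K1
  have hg := g_nonneg n
  have he : 0 ≤ 5 * K * g n := by positivity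
  induction l with
  | zero => simp [div_self (h.pos n).ne']
  | succ l ih =>
    obtain ⟨y, hy⟩ : ∃ y, y = r (n + 2 * l) / r n := ⟨_, rfl⟩
    obtain ⟨x, hx⟩ : ∃ x, x = r (n + 2 * l + 2) / r (n + 2 * l) := ⟨_, rfl⟩
    have h1 : |x - 1| ≤ 5 * K * g n := by
      rw [hx]
      refine (h.rat (n + 2 * l) (by omega)).trans ?_
      have := g_le hn (show n ≤ n + 2 * l by omega)
      nlinarith
    have e : r (n + 2 * (l + 1)) / r n = x * y := by
      rw [hx, hy, show n + 2 * (l + 1) = n + 2 * l + 2 by ring]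
      have := h.pos (n + 2 * l)
      field_simp
    rw [← hy] at ih
    rw [e]
    have e2 : x * y - 1 = (x - 1) * y + (y - 1) := by ring
    have h3 : |y| ≤ (1 + 5 * K * g n) ^ l := by
      have e3 : y = (y - 1) + 1 := by ring
      rw [e3]
      refine (abs_add_le _ _).trans ?_
      rw [abs_one]
      linarith
    calc |x * y - 1| ≤ |x - 1| * |y| + |y - 1| := by
          rw [e2, ← abs_mul]; exact abs_add_le _ _
      _ ≤ 5 * K * g n * (1 + 5 * K * g n) ^ l + ((1 + 5 * K * g n) ^ l - 1) := by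
          gcongr
      _ = _ := by rw [pow_succ]; ring

/-- the ratio over `m` steps, `m` even -/
lemma Hy.near (h : Hy r K c C) {n m : ℕ} (hn : 2 ≤ n) (hm : Even m)
    (hs : (m : ℝ) * Real.log n ≤ Real.sqrt n) :
    |r (n + m) / r n - 1| ≤ 5 * K * Real.exp (5 * K) * ((m : ℝ) * Real.log n / Real.sqrt n) := by
  obtain ⟨l, rfl⟩ := hm
  have hK := h.K1
  have hg := g_nonneg n
  have hn0 : (0 : ℝ) < n := by exact_mod_cast (by omega : 0 < n)
  have hsn : 0 < Real.sqrt n := Real.sqrt_pos.2 hn0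
  have h1 := h.prod hn l
  rw [show n + 2 * l = n + (l + l) by ring] at h1
  refine h1.trans ?_
  have hl0 : (0 : ℝ) ≤ l := Nat.cast_nonneg l
  have e1 : (((l + l : ℕ) : ℝ)) * Real.log n / Real.sqrt n = 2 * (l * g n) := by
    unfold g; push_cast; ring
  rw [e1]
  have h2 : 2 * ((l : ℝ) * g n) ≤ 1 := by
    rw [← e1, div_le_one hsn]; exact hs
  obtain ⟨x, hx⟩ : ∃ x, x = 5 * K * (l * g n) := ⟨_, rfl⟩
  have hlg : 0 ≤ (l : ℝ) * g n := by positivity
  have hx0 : 0 ≤ x := by rw [hx]; positivity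
  have hx1 : x ≤ 5 * K := by rw [hx]; nlinarith
  have h3 : (1 + 5 * K * g n) ^ l ≤ Real.exp x := by
    calc (1 + 5 * K * g n) ^ l ≤ (Real.exp (5 * K * g n)) ^ l := by
          apply pow_le_pow_left₀ (by positivity)
          have := Real.add_one_le_exp (5 * K * g n); linarith
      _ = Real.exp x := by rw [← Real.exp_nat_mul, hx]; congr 1; ring
  have h4 : Real.exp x - 1 ≤ x * Real.exp x := by
    have h5 := Real.add_one_le_exp (-x)
    have h6 : Real.exp x * Real.exp (-x) = 1 := by rw [← Real.exp_add]; simp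
    have h7 : 0 < Real.exp x := Real.exp_pos x
    nlinarith
  have h8 : Real.exp x ≤ Real.exp (5 * K) := Real.exp_le_exp.2 hx1
  calc (1 + 5 * K * g n) ^ l - 1 ≤ x * Real.exp x := by linarith
    _ ≤ x * Real.exp (5 * K) := by gcongr
    _ = 5 * K * Real.exp (5 * K) * (l * g n) := by rw [hx]; ring
    _ ≤ 5 * K * Real.exp (5 * K) * (2 * (l * g n)) := by
        have : 0 ≤ 5 * K * Real.exp (5 * K) := by positivity
        nlinarith

/-- two sided bounds for all `m` in a smaller range -/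
lemma Hy.comp (h : Hy r K c C) : ∃ κ : ℝ, 0 < κ ∧ κ ≤ 1 ∧ ∀ n m : ℕ, 2 ≤ n →
    (m : ℝ) * Real.log n ≤ κ * Real.sqrt n →
    c / 2 * r n ≤ r (n + m) ∧ r (n + m) ≤ 2 * C * r n := by
  have hK := h.K1
  have hc := h.c0
  have hc1 := h.c1
  have hC := h.C1
  have hA : 1 ≤ 5 * K * Real.exp (5 * K) := by
    have : 1 ≤ Real.exp (5 * K) := Real.one_le_exp (by positivity)
    nlinarith
  refine ⟨1 / (2 * (5 * K * Real.exp (5 * K))), by positivity, ?_, ?_⟩
  · rw [div_le_one (by positivity)]; linarith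
  intro n m hn hm
  have hn0 : (0 : ℝ) < n := by exact_mod_cast (by omega : 0 < n)
  have hsn : 0 < Real.sqrt n := Real.sqrt_pos.2 hn0
  have hl : 0 ≤ Real.log n := Real.log_natCast_nonneg n
  have key : ∀ k : ℕ, Even k → k ≤ m → 1 / 2 * r n ≤ r (n + k) ∧ r (n + k) ≤ 2 * r n := by
    intro k hk hkm
    have hkm' : (k : ℝ) ≤ m := by exact_mod_cast hkm
    have h1 : (k : ℝ) * Real.log n ≤ 1 / (2 * (5 * K * Real.exp (5 * K))) * Real.sqrt n := by
      nlinarith
    have h2 : 1 / (2 * (5 * K * Real.exp (5 * K))) ≤ 1 := by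
      rw [div_le_one (by positivity)]; linarith
    have h3 := h.near hn hk (by nlinarith)
    have h4 : 5 * K * Real.exp (5 * K) * ((k : ℝ) * Real.log n / Real.sqrt n) ≤ 1 / 2 := by
      rw [← mul_div_assoc, div_le_iff₀ hsn]
      calc 5 * K * Real.exp (5 * K) * ((k : ℝ) * Real.log n)
          ≤ 5 * K * Real.exp (5 * K) * (1 / (2 * (5 * K * Real.exp (5 * K))) * Real.sqrt n) := by
            gcongr
        _ = 1 / 2 * Real.sqrt n := by field_simp
    have h5 := abs_le.1 (h3.trans h4)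
    have hp := h.pos n
    have h6 : r (n + k) = r (n + k) / r n * r n := by field_simp
    rw [h6]
    constructor <;> nlinarith [h5.1, h5.2]
  rcases Nat.even_or_odd m with he | ho
  · obtain ⟨h1, h2⟩ := key m he le_rfl
    have hp := h.pos n
    constructor <;> nlinarith
  · obtain ⟨l, hl⟩ := ho
    obtain ⟨h1, h2⟩ := key (2 * l) (even_two_mul l) (by omega)
    have h3 := h.lo1 (n + 2 * l)
    have h4 := h.up1 (n + 2 * l)
    have e : n + m = n + 2 * l + 1 := by omega
    rw [e]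
    have hp := h.pos n
    have hp2 := h.pos (n + 2 * l)
    constructor <;> nlinarith

end Pool.Agent.TH262.UL
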